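import Pool.Agent.Helper96.ME.Defs

set_option autoImplicit false

/-!
MP_bde085_nt, block E, module SPX: the spherical function of a potential.
-/

namespace Pool.Agent.Helper96.ME

open Pool.Agent.Helper96.MP
open scoped MatrixGroups

/-! ### the group -/

section grp
variable {R : Type} [CommRing R]

theorem spx_ext (g h : SL(2, R)) (h1 : g 0 0 = h 0 0) (h2 : g 0 1 = h 0 1) (h3 : g 1 0 = h 1 0)
    (h4 : g 1 1 = h 1 1) : g = h := by
  ext i j
  fin_cases i <;> fin_cases j <;> assumption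

theorem spx_sg00 (u : Rˣ) (g : SL(2, R)) : (sg u g) 0 0 = g 0 0 := rfl
theorem spx_sg01 (u : Rˣ) (g : SL(2, R)) : (sg u g) 0 1 = (u : R) * g 0 1 := rfl
theorem spx_sg10 (u : Rˣ) (g : SL(2, R)) : (sg u g) 1 0 = ((u⁻¹ : Rˣ) : R) * g 1 0 := rfl
theorem spx_sg11 (u : Rˣ) (g : SL(2, R)) : (sg u g) 1 1 = g 1 1 := rfl
theorem spx_dg00 (u : Rˣ) : (dg u) 0 0 = (u : R) := rfl
theorem spx_dg01 (u : Rˣ) : (dg u) 0 1 = 0 := rfl
theorem spx_dg10 (u : Rˣ) : (dg u) 1 0 = 0 := rfl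
theorem spx_dg11 (u : Rˣ) : (dg u) 1 1 = ((u⁻¹ : Rˣ) : R) := rfl

theorem spx_mul (g h : SL(2, R)) (i j : Fin 2) :
    (g * h) i j = g i 0 * h 0 j + g i 1 * h 1 j := by
  rw [Matrix.SpecialLinearGroup.coe_mul, Matrix.mul_apply, Fin.sum_univ_two]

theorem spx_sg_mul (u : Rˣ) (g h : SL(2, R)) : sg u (g * h) = sg u g * sg u h := by
  have h1 : (u : R) * ((u⁻¹ : Rˣ) : R) = 1 := u.mul_inv
  refine spx_ext _ _ ?_ ?_ ?_ ?_
  · rw [spx_sg00, spx_mul, spx_mul, spx_sg00, spx_sg00, spx_sg01, spx_sg10]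
    linear_combination (-(g 0 1 * h 1 0)) * h1
  · rw [spx_sg01, spx_mul, spx_mul, spx_sg00, spx_sg01, spx_sg01, spx_sg11]
    ring
  · rw [spx_sg10, spx_mul, spx_mul, spx_sg00, spx_sg10, spx_sg10, spx_sg11]
    ring
  · rw [spx_sg11, spx_mul, spx_mul, spx_sg10, spx_sg11, spx_sg01, spx_sg11]
    linear_combination (-(g 1 0 * h 0 1)) * h1

theorem spx_sg_dg (u v : Rˣ) : sg u (dg v) = dg v := by
  refine spx_ext _ _ ?_ ?_ ?_ ?_
  · rw [spx_sg00]
  · rw [spx_sg01, spx_dg01, mul_zero]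
  · rw [spx_sg10, spx_dg10, mul_zero]
  · rw [spx_sg11]

theorem spx_sg_sg (u v : Rˣ) (g : SL(2, R)) : sg u (sg v g) = sg (u * v) g := by
  refine spx_ext _ _ ?_ ?_ ?_ ?_
  · simp only [spx_sg00]
  · simp only [spx_sg01, Units.val_mul]
    ring
  · simp only [spx_sg10, mul_inv, Units.val_mul]
    ring
  · simp only [spx_sg11]

theorem spx_sg_one (g : SL(2, R)) : sg 1 g = g := by
  refine spx_ext _ _ ?_ ?_ ?_ ?_
  · rw [spx_sg00]
  · rw [spx_sg01, Units.val_one, one_mul]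
  · rw [spx_sg10, inv_one, Units.val_one, one_mul]
  · rw [spx_sg11]

theorem spx_dg_mul (u v : Rˣ) : dg u * dg v = dg (u * v) := by
  refine spx_ext _ _ ?_ ?_ ?_ ?_
  · rw [spx_mul, spx_dg00, spx_dg00, spx_dg01, spx_dg00, Units.val_mul]
    ring
  · rw [spx_mul, spx_dg01, spx_dg01, spx_dg01]
    ring
  · rw [spx_mul, spx_dg10, spx_dg10, spx_dg10]
    ring
  · rw [spx_mul, spx_dg11, spx_dg11, spx_dg10, spx_dg11, mul_inv, Units.val_mul]
    ring

theorem spx_dg_one : dg (1 : Rˣ) = 1 := by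
  refine spx_ext _ _ ?_ ?_ ?_ ?_
  · rw [spx_dg00]; simp
  · rw [spx_dg01]; simp
  · rw [spx_dg10]; simp
  · rw [spx_dg11]; simp

theorem spx_sg_e (u : Rˣ) : sg u (1 : SL(2, R)) = 1 := by
  rw [← spx_dg_one, spx_sg_dg]

theorem spx_dg_comm (u : Rˣ) (y : SL(2, R)) : dg u * y = sg (u * u) y * dg u := by
  have h1 : (u : R) * ((u⁻¹ : Rˣ) : R) = 1 := u.mul_inv
  refine spx_ext _ _ ?_ ?_ ?_ ?_
  · simp only [spx_mul, spx_dg00, spx_dg01, spx_dg10, spx_sg00, spx_sg01]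
    ring
  · simp only [spx_mul, spx_dg00, spx_dg01, spx_dg11, spx_sg00, spx_sg01, Units.val_mul]
    linear_combination (-((u : R) * y 0 1)) * h1
  · simp only [spx_mul, spx_dg00, spx_dg10, spx_dg11, spx_sg10, spx_sg11, Units.val_mul,
      mul_inv]
    linear_combination (-(((u⁻¹ : Rˣ) : R) * y 1 0)) * h1
  · simp only [spx_mul, spx_dg01, spx_dg10, spx_dg11, spx_sg10, spx_sg11]
    ring

end grp

/-! ### equality up to constants -/

theorem spx_refl (f : ℤ → ℤ → ℝ) : eqc f f := ⟨0, fun x y _ => by rw [add_zero]⟩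

theorem spx_symm {f g : ℤ → ℤ → ℝ} (h : eqc f g) : eqc g f := by
  obtain ⟨κ, h⟩ := h
  exact ⟨-κ, fun x y hxy => by rw [h x y hxy]; ring⟩

theorem spx_trans {f g k : ℤ → ℤ → ℝ} (h : eqc f g) (h' : eqc g k) : eqc f k := by
  obtain ⟨κ, h⟩ := h
  obtain ⟨κ', h'⟩ := h'
  exact ⟨κ + κ', fun x y hxy => by rw [h x y hxy, h' x y hxy]; ring⟩

theorem spx_sum {ι : Type} (s : Finset ι) (f g : ι → ℤ → ℤ → ℝ) (h : ∀ i ∈ s, eqc (f i) (g i)) :
    eqc (fun x y => ∑ i ∈ s, f i x y) (fun x y => ∑ i ∈ s, g i x y) := by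
  classical
  refine ⟨∑ i ∈ s, (f i 1 0 - g i 1 0), fun x y hxy => ?_⟩
  rw [← Finset.sum_add_distrib]
  refine Finset.sum_congr rfl fun i hi => ?_
  obtain ⟨κ, h⟩ := h i hi
  rw [h x y hxy, h 1 0 (Or.inl one_ne_zero)]
  ring

theorem spx_smul (c : ℝ) {f g : ℤ → ℤ → ℝ} (h : eqc f g) :
    eqc (fun x y => c * f x y) (fun x y => c * g x y) := by
  obtain ⟨κ, h⟩ := h
  refine ⟨c * κ, fun x y hxy => ?_⟩
  simp only
  rw [h x y hxy]
  ring

/-- a multiple of a nonconstant function determines the factor -/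
theorem spx_uniq {c c' : ℝ} {f C : ℤ → ℤ → ℝ} (x0 y0 : ℤ) (h0 : x0 ≠ 0 ∨ y0 ≠ 0)
    (hne : C x0 y0 ≠ C 1 0) (h : eqc f (fun x y => c * C x y)) (h' : eqc f (fun x y => c' * C x y)) :
    c = c' := by
  obtain ⟨κ, h⟩ := h
  obtain ⟨κ', h'⟩ := h'
  have h1 := h x0 y0 h0
  have h2 := h 1 0 (Or.inl one_ne_zero)
  have h3 := h' x0 y0 h0
  have h4 := h' 1 0 (Or.inl one_ne_zero)
  have h5 : (c - c') * (C x0 y0 - C 1 0) = 0 := by linear_combination h2 - h1 + h3 - h4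
  rcases mul_eq_zero.1 h5 with h6 | h6
  · linarith
  · exact absurd (sub_eq_zero.1 h6) hne

/-- `ca` respects equality up to constants -/
theorem spx_ca {f g : ℤ → ℤ → ℝ} (M : ℕ) (hM : 1 ≤ M) (h : eqc f g) (γ : SL(2, ℤ)) :
    eqc (ca M f γ) (ca M g γ) := by
  obtain ⟨κ, h⟩ := h
  refine ⟨κ, fun x y hxy => ?_⟩
  unfold ca
  refine h _ _ ?_
  by_contra hcon
  push Not at hcon
  obtain ⟨h1, h2⟩ := hcon
  have hd := γ.2
  rw [Matrix.det_fin_two] at hd
  have hM' : (M : ℤ) ≠ 0 := by positivity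
  have hx : (M : ℤ) ^ 2 * x = 0 := by
    linear_combination ((M : ℤ) * γ 1 1) * h1 - (γ 0 1) * h2 - ((M : ℤ) ^ 2 * x) * hd
  have hy : (M : ℤ) ^ 2 * y = 0 := by
    linear_combination ((M : ℤ) * γ 0 0) * h2 - ((M : ℤ) ^ 2 * γ 1 0) * h1 - ((M : ℤ) ^ 2 * y) * hd
  have hM2 : (M : ℤ) ^ 2 ≠ 0 := pow_ne_zero 2 hM'
  rcases hxy with h3 | h3
  · exact h3 ((mul_eq_zero.1 hx).resolve_left hM2)
  · exact h3 ((mul_eq_zero.1 hy).resolve_left hM2)

theorem spx_ca_sum {ι : Type} (s : Finset ι) (f : ι → ℤ → ℤ → ℝ) (M : ℕ) (γ : SL(2, ℤ)) (x y : ℤ) :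
    ca M (fun x y => ∑ i ∈ s, f i x y) γ x y = ∑ i ∈ s, ca M (f i) γ x y := rfl

/-! ### the operators -/

section ops
variable {M Q : ℕ} [NeZero M] {C : ℤ → ℤ → ℝ}

/-- the averaged operator -/
noncomputable def spx_A (M Q : ℕ) [NeZero M] (C : ℤ → ℤ → ℝ) (g : SL(2, ZMod M)) (x y : ℤ) : ℝ :=
  ∑ u : (ZMod M)ˣ, ∑ t : (ZMod M)ˣ, ca M C (lf M Q (sg u g * dg t)) x y

theorem spx_A_eqc {f g : ℤ → ℤ → ℝ} (h : eqc f g) (γ : SL(2, ZMod M)) :
    eqc (spx_A M Q f γ) (spx_A M Q g γ) := by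
  unfold spx_A
  refine spx_sum _ (fun u x y => ∑ t : (ZMod M)ˣ, ca M f (lf M Q (sg u γ * dg t)) x y)
    (fun u x y => ∑ t : (ZMod M)ˣ, ca M g (lf M Q (sg u γ * dg t)) x y) fun u _ => ?_
  refine spx_sum _ (fun t x y => ca M f (lf M Q (sg u γ * dg t)) x y)
    (fun t x y => ca M g (lf M Q (sg u γ * dg t)) x y) fun t _ => ?_
  exact spx_ca M (NeZero.one_le) h _

theorem spx_A_smul (c : ℝ) (f : ℤ → ℤ → ℝ) (γ : SL(2, ZMod M)) (x y : ℤ) :
    spx_A M Q (fun x y => c * f x y) γ x y = c * spx_A M Q f γ x y := by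
  unfold spx_A ca
  simp only [Finset.mul_sum]

/-- right invariance -/
theorem spx_A_right (g : SL(2, ZMod M)) (s : (ZMod M)ˣ) (x y : ℤ) :
    spx_A M Q C (g * dg s) x y = spx_A M Q C g x y := by
  unfold spx_A
  refine Finset.sum_congr rfl fun u _ => ?_
  refine Fintype.sum_equiv (Equiv.mulLeft s) _ _ fun t => ?_
  rw [spx_sg_mul, spx_sg_dg, mul_assoc, spx_dg_mul]
  rfl

/-- invariance under `sg` -/
theorem spx_A_sig (g : SL(2, ZMod M)) (s : (ZMod M)ˣ) (x y : ℤ) :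
    spx_A M Q C (sg s g) x y = spx_A M Q C g x y := by
  unfold spx_A
  refine Fintype.sum_equiv (Equiv.mulRight s) _ _ fun u => ?_
  refine Finset.sum_congr rfl fun t _ => ?_
  rw [spx_sg_sg]
  rfl

variable (hL : ∀ g : SL(2, ZMod M), (Q : ℤ) ∣ (lf M Q g) 1 0 ∧ rd M (lf M Q g) = g)
  (hC1 : ∀ g g' : SL(2, ℤ), (Q : ℤ) ∣ g 1 0 → (Q : ℤ) ∣ g' 1 0 →
      (∃ u : (ZMod M)ˣ, rd M g' = dg u * rd M g) → eqc (ca M C g') (ca M C g))
  (hC2 : ∀ g h, ca M (ca M C g) h = ca M C (g * h)) (hH : Hom0 C)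

omit [NeZero M] in
include hL hC1 in
theorem spx_T1 (g : SL(2, ZMod M)) (s : (ZMod M)ˣ) :
    eqc (ca M C (lf M Q (dg s * g))) (ca M C (lf M Q g)) :=
  hC1 _ _ (hL g).1 (hL _).1 ⟨s, by rw [(hL _).2, (hL _).2]⟩

omit [NeZero M] in
include hL hC1 in
theorem spx_T2 (g h : SL(2, ZMod M)) :
    eqc (ca M C (lf M Q g * lf M Q h)) (ca M C (lf M Q (g * h))) := by
  refine hC1 _ _ (hL _).1 ?_ ⟨1, ?_⟩
  · rw [spx_mul]
    exact dvd_add (Dvd.dvd.mul_right (hL g).1 _) (Dvd.dvd.mul_left (hL h).1 _)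
  · rw [spx_dg_one, one_mul, (hL _).2]
    have : rd M (lf M Q g * lf M Q h) = rd M (lf M Q g) * rd M (lf M Q h) := by
      unfold rd
      rw [map_mul]
    rw [this, (hL _).2, (hL _).2]

include hL hC1 hH in
theorem spx_T3 : eqc (ca M C (lf M Q 1)) C := by
  have h1 : eqc (ca M C (lf M Q 1)) (ca M C 1) := by
    refine hC1 _ _ ?_ (hL _).1 ⟨1, ?_⟩
    · simp
    · rw [spx_dg_one, one_mul, (hL _).2]
      unfold rd
      rw [map_one]
  refine spx_trans h1 ⟨0, fun x y _ => ?_⟩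
  unfold ca
  have hM : (M : ℤ) ≠ 0 := by exact_mod_cast NeZero.ne M
  have h2 := hH (M : ℤ) x y hM
  have h3 : (1 : SL(2, ℤ)) 0 0 = 1 := by simp
  have h4 : (1 : SL(2, ℤ)) 0 1 = 0 := by simp
  have h5 : (1 : SL(2, ℤ)) 1 0 = 0 := by simp
  have h6 : (1 : SL(2, ℤ)) 1 1 = 1 := by simp
  rw [h3, h4, h5, h6, add_zero, ← h2]
  congr 1 <;> ring

include hL hC1 in
theorem spx_A_left (g : SL(2, ZMod M)) (s : (ZMod M)ˣ) :
    eqc (spx_A M Q C (dg s * g)) (spx_A M Q C g) := by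
  unfold spx_A
  refine spx_sum _ (fun u x y => ∑ t : (ZMod M)ˣ, ca M C (lf M Q (sg u (dg s * g) * dg t)) x y)
    (fun u x y => ∑ t : (ZMod M)ˣ, ca M C (lf M Q (sg u g * dg t)) x y) fun u _ => ?_
  refine spx_sum _ (fun t x y => ca M C (lf M Q (sg u (dg s * g) * dg t)) x y)
    (fun t x y => ca M C (lf M Q (sg u g * dg t)) x y) fun t _ => ?_
  rw [spx_sg_mul, spx_sg_dg, mul_assoc]
  exact spx_T1 hL hC1 _ _

include hL hC1 hH in
theorem spx_A_one : eqc (spx_A M Q C 1) (fun x y => (Fintype.card (ZMod M)ˣ : ℝ) ^ 2 * C x y) := by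
  have h1 : (fun x y => (Fintype.card (ZMod M)ˣ : ℝ) ^ 2 * C x y) =
      fun x y => ∑ _u : (ZMod M)ˣ, ∑ _t : (ZMod M)ˣ, C x y := by
    funext x y
    simp only [Finset.sum_const, Finset.card_univ, nsmul_eq_mul]
    ring
  rw [h1]
  unfold spx_A
  refine spx_sum _ (fun u x y => ∑ t : (ZMod M)ˣ, ca M C (lf M Q (sg u 1 * dg t)) x y)
    (fun u x y => ∑ t : (ZMod M)ˣ, C x y) fun u _ => ?_
  refine spx_sum _ (fun t x y => ca M C (lf M Q (sg u 1 * dg t)) x y)
    (fun t x y => C x y) fun t _ => ?_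
  rw [spx_sg_e, one_mul, ← mul_one (dg t)]
  exact spx_trans (spx_T1 hL hC1 _ _) (spx_T3 hL hC1 hH)

include hL hC1 hC2 in
theorem spx_A_comp (g h : SL(2, ZMod M)) : eqc (spx_A M Q (spx_A M Q C g) h)
    (fun x y => (Fintype.card (ZMod M)ˣ : ℝ) * ∑ v : (ZMod M)ˣ, spx_A M Q C (g * sg v h) x y) := by
  have h1 : eqc (spx_A M Q (spx_A M Q C g) h) (fun x y => ∑ v : (ZMod M)ˣ, ∑ s : (ZMod M)ˣ,
      ∑ u : (ZMod M)ˣ, ∑ t : (ZMod M)ˣ,
        ca M C (lf M Q (sg u g * dg t * (sg v h * dg s))) x y) := by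
    have h2 : spx_A M Q (spx_A M Q C g) h = fun x y => ∑ v : (ZMod M)ˣ, ∑ s : (ZMod M)ˣ,
        ∑ u : (ZMod M)ˣ, ∑ t : (ZMod M)ˣ,
          ca M C (lf M Q (sg u g * dg t) * lf M Q (sg v h * dg s)) x y := by
      funext x y
      unfold spx_A
      refine Finset.sum_congr rfl fun v _ => Finset.sum_congr rfl fun s _ => ?_
      rw [spx_ca_sum]
      refine Finset.sum_congr rfl fun u _ => ?_
      rw [spx_ca_sum]
      refine Finset.sum_congr rfl fun t _ => ?_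
      rw [← hC2]
    rw [h2]
    refine spx_sum _ (fun v x y => ∑ s : (ZMod M)ˣ, ∑ u : (ZMod M)ˣ, ∑ t : (ZMod M)ˣ,
        ca M C (lf M Q (sg u g * dg t) * lf M Q (sg v h * dg s)) x y)
      (fun v x y => ∑ s : (ZMod M)ˣ, ∑ u : (ZMod M)ˣ, ∑ t : (ZMod M)ˣ,
        ca M C (lf M Q (sg u g * dg t * (sg v h * dg s))) x y) fun v _ => ?_
    refine spx_sum _ (fun s x y => ∑ u : (ZMod M)ˣ, ∑ t : (ZMod M)ˣ,
        ca M C (lf M Q (sg u g * dg t) * lf M Q (sg v h * dg s)) x y)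
      (fun s x y => ∑ u : (ZMod M)ˣ, ∑ t : (ZMod M)ˣ,
        ca M C (lf M Q (sg u g * dg t * (sg v h * dg s))) x y) fun s _ => ?_
    refine spx_sum _ (fun u x y => ∑ t : (ZMod M)ˣ,
        ca M C (lf M Q (sg u g * dg t) * lf M Q (sg v h * dg s)) x y)
      (fun u x y => ∑ t : (ZMod M)ˣ,
        ca M C (lf M Q (sg u g * dg t * (sg v h * dg s))) x y) fun u _ => ?_
    refine spx_sum _ (fun t x y =>
        ca M C (lf M Q (sg u g * dg t) * lf M Q (sg v h * dg s)) x y)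
      (fun t x y =>
        ca M C (lf M Q (sg u g * dg t * (sg v h * dg s))) x y) fun t _ => ?_
    exact spx_T2 hL hC1 _ _
  refine spx_trans h1 ⟨0, fun x y _ => ?_⟩
  rw [add_zero]
  -- rearrangement
  have h3 : ∀ t : (ZMod M)ˣ, ∑ v : (ZMod M)ˣ, spx_A M Q C (g * sg v h) x y =
      ∑ v : (ZMod M)ˣ, ∑ u : (ZMod M)ˣ, ∑ s : (ZMod M)ˣ,
        ca M C (lf M Q (sg u g * dg t * (sg v h * dg s))) x y := by
    intro t
    have h4 : ∑ v : (ZMod M)ˣ, spx_A M Q C (g * sg v h) x y =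
        ∑ v : (ZMod M)ˣ, spx_A M Q C (g * dg t * sg v h) x y := by
      symm
      refine Fintype.sum_equiv (Equiv.mulLeft (t * t)) _ _ fun v => ?_
      rw [mul_assoc, spx_dg_comm, ← mul_assoc, spx_A_right, spx_sg_sg]
      rfl
    rw [h4]
    unfold spx_A
    rw [Finset.sum_comm, Finset.sum_comm (s := Finset.univ) (t := Finset.univ)
      (f := fun v u => ∑ s : (ZMod M)ˣ, ca M C (lf M Q (sg u g * dg t * (sg v h * dg s))) x y)]
    refine Finset.sum_congr rfl fun u _ => ?_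
    refine Fintype.sum_equiv (Equiv.mulLeft u) _ _ fun v => ?_
    refine Finset.sum_congr rfl fun s _ => ?_
    rw [spx_sg_mul, spx_sg_mul, spx_sg_dg, spx_sg_sg]
    simp only [Equiv.coe_mulLeft, mul_assoc]
  have h5 : (Fintype.card (ZMod M)ˣ : ℝ) * ∑ v : (ZMod M)ˣ, spx_A M Q C (g * sg v h) x y =
      ∑ t : (ZMod M)ˣ, ∑ v : (ZMod M)ˣ, ∑ u : (ZMod M)ˣ, ∑ s : (ZMod M)ˣ,
        ca M C (lf M Q (sg u g * dg t * (sg v h * dg s))) x y := by
    rw [← Finset.sum_congr rfl fun t _ => h3 t]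
    simp only [Finset.sum_const, Finset.card_univ, nsmul_eq_mul]
  simp only
  rw [h5]
  have h6 : ∀ v : (ZMod M)ˣ, ∑ s : (ZMod M)ˣ, ∑ u : (ZMod M)ˣ, ∑ t : (ZMod M)ˣ,
      ca M C (lf M Q (sg u g * dg t * (sg v h * dg s))) x y =
      ∑ t : (ZMod M)ˣ, ∑ u : (ZMod M)ˣ, ∑ s : (ZMod M)ˣ,
        ca M C (lf M Q (sg u g * dg t * (sg v h * dg s))) x y := by
    intro v
    rw [Finset.sum_comm]
    rw [Finset.sum_comm (s := Finset.univ) (t := Finset.univ) (f := fun t u =>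
      ∑ s : (ZMod M)ˣ, ca M C (lf M Q (sg u g * dg t * (sg v h * dg s))) x y)]
    refine Finset.sum_congr rfl fun u _ => ?_
    rw [Finset.sum_comm]
  rw [Finset.sum_congr rfl fun v _ => h6 v]
  rw [Finset.sum_comm]

/-- the weight whose operator is `spx_A` -/
noncomputable def spx_k (M : ℕ) [NeZero M] (g x : SL(2, ZMod M)) : ℝ := by
  classical
  exact ∑ u : (ZMod M)ˣ, ∑ t : (ZMod M)ˣ, if x = sg u g * dg t then 1 else 0

theorem spx_k_right (g : SL(2, ZMod M)) (s : (ZMod M)ˣ) (x : SL(2, ZMod M)) :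
    spx_k M g (x * dg s) = spx_k M g x := by
  unfold spx_k
  refine Finset.sum_congr rfl fun u _ => ?_
  symm
  refine Fintype.sum_equiv (Equiv.mulRight s) _ _ fun t => ?_
  have : (x = sg u g * dg t) ↔ (x * dg s = sg u g * dg (Equiv.mulRight s t)) := by
    rw [Equiv.coe_mulRight, ← spx_dg_mul, ← mul_assoc]
    exact (mul_left_inj (dg s)).symm
  simp only [this]

theorem spx_k_sig (g : SL(2, ZMod M)) (s : (ZMod M)ˣ) (x : SL(2, ZMod M)) :
    spx_k M g (sg s x) = spx_k M g x := by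
  unfold spx_k
  symm
  refine Fintype.sum_equiv (Equiv.mulLeft s) _ _ fun u => ?_
  refine Finset.sum_congr rfl fun t _ => ?_
  have : (x = sg u g * dg t) ↔ (sg s x = sg (Equiv.mulLeft s u) g * dg t) := by
    rw [Equiv.coe_mulLeft, ← spx_sg_sg, ← spx_sg_dg s t, ← spx_sg_mul, spx_sg_dg]
    constructor
    · intro h
      rw [h]
    · intro h
      have h1 := congrArg (sg s⁻¹) h
      rw [spx_sg_sg, spx_sg_sg, inv_mul_cancel, spx_sg_one, spx_sg_one] at h1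
      exact h1
  simp only [this]

theorem spx_hh (g : SL(2, ZMod M)) : hh M Q (spx_k M g) C = spx_A M Q C g := by
  classical
  funext x y
  unfold hh spx_A spx_k
  have : Fintype SL(2, ZMod M) := Fintype.ofFinite _
  rw [finsum_eq_sum_of_fintype]
  simp only [Finset.sum_mul, ite_mul, one_mul, zero_mul]
  rw [Finset.sum_comm]
  refine Finset.sum_congr rfl fun u _ => ?_
  rw [Finset.sum_comm]
  refine Finset.sum_congr rfl fun t _ => ?_
  rw [Finset.sum_ite_eq']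
  simp

end ops

/-! ### integrality -/

/-- a real number `μ` with `μ ^ k * d` integral for all `k` and some integer `d ≠ 0` is integral -/
theorem spx_int (μ : ℝ) (d : ℤ) (hd : d ≠ 0) (h : ∀ k : ℕ, ∃ z : ℤ, μ ^ k * d = z) :
    ∃ z : ℤ, μ = z := by
  obtain ⟨m, hm⟩ := h 1
  have hd' : (d : ℝ) ≠ 0 := by exact_mod_cast hd
  have h1 : μ = (((m : ℚ) / (d : ℚ) : ℚ) : ℝ) := by
    push_cast
    rw [eq_div_iff hd', ← hm, pow_one]
  set r : ℚ := (m : ℚ) / (d : ℚ) with hr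
  have h2 : ∀ k : ℕ, ((r.den : ℤ) ^ k) ∣ d := by
    intro k
    obtain ⟨z, hz⟩ := h k
    rw [h1] at hz
    have h3 : r ^ k * d = z := by exact_mod_cast hz
    have h4 : (r.num : ℚ) / (r.den : ℚ) = r := Rat.num_div_den r
    have h5 : ((r.den : ℚ)) ≠ 0 := by exact_mod_cast r.den_nz
    have h6 : (r.num : ℚ) ^ k * d = z * (r.den : ℚ) ^ k := by
      rw [← h3]
      nth_rewrite 2 [← h4]
      rw [div_pow]
      field_simp
    have h7 : r.num ^ k * d = z * (r.den : ℤ) ^ k := by exact_mod_cast h6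
    have h8 : IsCoprime ((r.den : ℤ) ^ k) (r.num ^ k) := by
      refine IsCoprime.pow ?_
      rw [Int.isCoprime_iff_gcd_eq_one, Int.gcd_comm]
      have := r.reduced
      rw [Int.gcd_def]
      simpa using this
    refine h8.dvd_of_dvd_mul_left ?_
    rw [h7]
    exact dvd_mul_left _ _
  have h3 : r.den = 1 := by
    by_contra hne
    have h4 : 2 ≤ r.den := by
      have := r.den_pos
      omega
    have h5 := Int.natAbs_dvd_natAbs.2 (h2 d.natAbs)
    have h6 : r.den ^ d.natAbs ≤ d.natAbs := by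
      refine Nat.le_of_dvd (Int.natAbs_pos.2 hd) ?_
      simpa [Int.natAbs_pow] using h5
    have h7 : d.natAbs < 2 ^ d.natAbs := Nat.lt_two_pow_self
    have h8 : 2 ^ d.natAbs ≤ r.den ^ d.natAbs := Nat.pow_le_pow_left h4 _
    omega
  refine ⟨r.num, ?_⟩
  rw [h1]
  have h4 : ((r.num : ℤ) : ℚ) = r := by
    conv_rhs => rw [← Rat.num_div_den r]
    rw [h3]
    simp
  exact_mod_cast h4.symm

/-! ### the theorem -/

theorem st_SPX (hcai : ST_CAI) (hlft : ST_LFT) (hopa : ST_OPA) (hoph : ST_OPH) : ST_SPX := by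
  intro M Q a ε C0 hM hQ hcop hPT hnc huniq
  obtain ⟨x0, y0, h0, hne⟩ := hnc
  have hNM : NeZero M := ⟨by omega⟩
  set C : ℤ → ℤ → ℝ := fun x y => (C0 x y : ℝ) with hC
  obtain ⟨hL, -⟩ := hlft M Q hM hQ hcop
  obtain ⟨-, hC2, hC3⟩ := hcai M Q C hM hQ hcop hPT.hom
  obtain ⟨hC1, -⟩ := hC3 hPT.eqv
  have hne' : C x0 y0 ≠ C 1 0 := by
    simp only [hC]
    exact_mod_cast hne
  -- the transforms are potentials
  have hA : ∀ g, PT (Q * M ^ 2) a ε (spx_A M Q C g) := by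
    intro g
    rw [← spx_hh]
    have hk1 : ∀ u x, spx_k M g (x * dg u) = spx_k M g x := fun u x => spx_k_right g u x
    have hk2 : ∀ u x, spx_k M g (sg u x) = spx_k M g x := fun u x => spx_k_sig g u x
    obtain ⟨h1, h2, h3⟩ := hopa M Q ε C (spx_k M g) hM hQ hcop hk1 hk2 hPT.hom hPT.eqv
    refine ⟨h1, h2, h3 hPT.sign, ?_⟩
    intro l hl hlN hl6
    obtain ⟨h4, h5⟩ := hPT.hecke l hl hlN hl6
    have hcopl : Nat.Coprime l (Q * M ^ 2) := (Nat.Prime.coprime_iff_not_dvd hl).2 hlN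
    exact ⟨hoph M Q l _ C _ hM hQ hcop hl.one_lt.le hcopl hk1 hk2 hPT.hom hPT.eqv h4,
      hoph M Q (l ^ 2) _ C _ hM hQ hcop (Nat.one_le_pow _ _ hl.pos) (hcopl.pow_left 2) hk1 hk2
        hPT.hom hPT.eqv h5⟩
  choose μ hμ using fun g => huniq _ (hA g)
  have hμ' : ∀ g, eqc (spx_A M Q C g) (fun x y => μ g * C x y) := hμ
  -- integrality
  have hint : ∀ g, ∃ z : ℤ, μ g = z := by
    intro g
    have hd : C0 x0 y0 - C0 1 0 ≠ 0 := sub_ne_zero.2 hne
    refine spx_int (μ g) (C0 x0 y0 - C0 1 0) hd ?_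
    have hit : ∀ k : ℕ, ∃ D : ℤ → ℤ → ℤ, eqc (fun x y => (D x y : ℝ))
        (fun x y => μ g ^ k * C x y) := by
      intro k
      induction k with
      | zero => exact ⟨C0, ⟨0, fun x y _ => by simp [hC]⟩⟩
      | succ k ih =>
        obtain ⟨D, hD⟩ := ih
        refine ⟨fun x y => ∑ u : (ZMod M)ˣ, ∑ t : (ZMod M)ˣ,
          D (M * (lf M Q (sg u g * dg t)) 0 0 * x + (lf M Q (sg u g * dg t)) 0 1 * y)
            (M ^ 2 * (lf M Q (sg u g * dg t)) 1 0 * x + M * (lf M Q (sg u g * dg t)) 1 1 * y), ?_⟩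
        have h1 := spx_A_eqc (M := M) (Q := Q) hD g
        have h2 : spx_A M Q (fun x y => μ g ^ k * C x y) g =
            fun x y => μ g ^ k * spx_A M Q C g x y := by
          funext x y
          rw [spx_A_smul]
        rw [h2] at h1
        have h3 := spx_trans h1 (spx_smul (μ g ^ k) (hμ' g))
        have h4 : (fun x y => μ g ^ k * (μ g * C x y)) = fun x y => μ g ^ (k + 1) * C x y := by
          funext x y
          ring
        rw [h4] at h3
        refine spx_trans ⟨0, fun x y _ => ?_⟩ h3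
        rw [add_zero]
        unfold spx_A ca
        push_cast
        rfl
    intro k
    obtain ⟨D, κ, hD⟩ := hit k
    have h1 := hD x0 y0 h0
    have h2 := hD 1 0 (Or.inl one_ne_zero)
    refine ⟨D x0 y0 - D 1 0, ?_⟩
    push_cast
    simp only [hC] at h1 h2
    linear_combination h2 - h1
  -- properties of `μ`
  have hcard : (Nat.card (ZMod M)ˣ : ℝ) = (Fintype.card (ZMod M)ˣ : ℝ) := by
    rw [Nat.card_eq_fintype_card]
  have hcpos : (0 : ℝ) < (Fintype.card (ZMod M)ˣ : ℝ) := by exact_mod_cast Fintype.card_pos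
  have hcne : (Fintype.card (ZMod M)ˣ : ℝ) ≠ 0 := hcpos.ne'
  have hone : μ 1 = (Fintype.card (ZMod M)ˣ : ℝ) ^ 2 :=
    spx_uniq x0 y0 h0 hne' (hμ' 1) (spx_A_one hL hC1 hPT.hom)
  have hleft : ∀ u g, μ (dg u * g) = μ g := fun u g =>
    spx_uniq x0 y0 h0 hne' (hμ' (dg u * g)) (spx_trans (spx_A_left hL hC1 g u) (hμ' g))
  have hright : ∀ u g, μ (g * dg u) = μ g := fun u g => by
    have h1 : spx_A M Q C (g * dg u) = spx_A M Q C g := by
      funext x y
      exact spx_A_right g u x y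
    have h2 := hμ' (g * dg u)
    rw [h1] at h2
    exact spx_uniq x0 y0 h0 hne' h2 (hμ' g)
  have hsig : ∀ u g, μ (sg u g) = μ g := fun u g => by
    have h1 : spx_A M Q C (sg u g) = spx_A M Q C g := by
      funext x y
      exact spx_A_sig g u x y
    have h2 := hμ' (sg u g)
    rw [h1] at h2
    exact spx_uniq x0 y0 h0 hne' h2 (hμ' g)
  have hsph : ∀ g h, (Fintype.card (ZMod M)ˣ : ℝ) * ∑ v : (ZMod M)ˣ, μ (g * sg v h) =
      μ g * μ h := by
    intro g h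
    have h1 := spx_A_comp hL hC1 hC2 g h
    have h2 : eqc (fun x y => (Fintype.card (ZMod M)ˣ : ℝ) *
        ∑ v : (ZMod M)ˣ, spx_A M Q C (g * sg v h) x y)
        (fun x y => (Fintype.card (ZMod M)ˣ : ℝ) * ∑ v : (ZMod M)ˣ, μ (g * sg v h) * C x y) :=
      spx_smul _ (spx_sum _ (fun v x y => spx_A M Q C (g * sg v h) x y)
        (fun v x y => μ (g * sg v h) * C x y) fun v _ => hμ' _)
    have h3 : (fun x y => (Fintype.card (ZMod M)ˣ : ℝ) *
        ∑ v : (ZMod M)ˣ, μ (g * sg v h) * C x y) = fun x y =>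
          ((Fintype.card (ZMod M)ˣ : ℝ) * ∑ v : (ZMod M)ˣ, μ (g * sg v h)) * C x y := by
      funext x y
      rw [← Finset.sum_mul, mul_assoc]
    rw [h3] at h2
    have h4 := spx_A_eqc (M := M) (Q := Q) (hμ' g) h
    have h5 : spx_A M Q (fun x y => μ g * C x y) h = fun x y => μ g * spx_A M Q C h x y := by
      funext x y
      rw [spx_A_smul]
    rw [h5] at h4
    have h6 := spx_trans h4 (spx_smul (μ g) (hμ' h))
    have h7 : (fun x y => μ g * (μ h * C x y)) = fun x y => (μ g * μ h) * C x y := by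
      funext x y
      ring
    rw [h7] at h6
    exact spx_uniq x0 y0 h0 hne' (spx_trans h1 h2) h6
  -- the function
  set c : ℝ := (Fintype.card (ZMod M)ˣ : ℝ) with hc
  have hφμ : ∀ g, c ^ 2 * (μ g / c ^ 2) = μ g := fun g => by
    field_simp
  refine ⟨fun g => μ g / c ^ 2, ⟨?_, ?_, ?_, ?_⟩, ?_, ?_⟩
  · simp only [hone]
    exact div_self (pow_ne_zero 2 hcne)
  · intro u g
    simp only [hleft]
  · intro u g
    simp only [hsig]
  · intro g h
    rw [finsum_eq_sum_of_fintype, hcard]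
    rw [← Finset.sum_div]
    have h1 := hsph g h
    field_simp
    linarith
  · intro g
    obtain ⟨z, hz⟩ := hint g
    exact ⟨z, by rw [hcard, hφμ, hz]⟩
  · -- the operator of the spherical function
    have hFT : Fintype SL(2, ZMod M) := Fintype.ofFinite _
    have hsum : ∀ x y : ℤ, c ^ 2 * hh M Q (fun g => μ g / c ^ 2) C x y =
        ∑ g : SL(2, ZMod M), (μ g / c ^ 2) * spx_A M Q C g x y := by
      intro x y
      unfold hh spx_A
      rw [finsum_eq_sum_of_fintype]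
      simp only [Finset.mul_sum]
      rw [Finset.sum_comm]
      have h1 : ∀ u t : (ZMod M)ˣ, ∑ g : SL(2, ZMod M), μ g / c ^ 2 *
          ca M C (lf M Q (sg u g * dg t)) x y =
          ∑ g : SL(2, ZMod M), μ g / c ^ 2 * ca M C (lf M Q g) x y := by
        intro u t
        let e : SL(2, ZMod M) ≃ SL(2, ZMod M) :=
          { toFun := fun g => sg u g * dg t
            invFun := fun g => sg u⁻¹ (g * dg t⁻¹)
            left_inv := fun g => by
              simp only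
              rw [mul_assoc, spx_dg_mul, mul_inv_cancel, spx_dg_one, mul_one, spx_sg_sg,
                inv_mul_cancel, spx_sg_one]
            right_inv := fun g => by
              simp only
              rw [spx_sg_sg, mul_inv_cancel, spx_sg_one, mul_assoc, spx_dg_mul, inv_mul_cancel,
                spx_dg_one, mul_one] }
        refine Fintype.sum_equiv e _ _ fun g => ?_
        have h2 : μ (e g) = μ g := by
          change μ (sg u g * dg t) = μ g
          rw [hright, hsig]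
        rw [h2]
        rfl
      have h2 : ∀ u : (ZMod M)ˣ, ∑ g : SL(2, ZMod M), ∑ t : (ZMod M)ˣ, μ g / c ^ 2 *
          ca M C (lf M Q (sg u g * dg t)) x y =
          c * ∑ g : SL(2, ZMod M), μ g / c ^ 2 * ca M C (lf M Q g) x y := by
        intro u
        rw [Finset.sum_comm, Finset.sum_congr rfl fun t _ => h1 u t, Finset.sum_const,
          Finset.card_univ, nsmul_eq_mul]
      rw [Finset.sum_congr rfl fun u _ => h2 u, Finset.sum_const, Finset.card_univ, nsmul_eq_mul,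
        ← Finset.mul_sum]
      ring
    have h1 : hh M Q (fun g => μ g / c ^ 2) C = fun x y => (1 / c ^ 2) *
        ∑ g : SL(2, ZMod M), (μ g / c ^ 2) * spx_A M Q C g x y := by
      funext x y
      rw [← hsum]
      field_simp
    rw [h1]
    have h2 : eqc (fun x y => (1 / c ^ 2) *
        ∑ g : SL(2, ZMod M), (μ g / c ^ 2) * spx_A M Q C g x y)
        (fun x y => (1 / c ^ 2) * ∑ g : SL(2, ZMod M), (μ g / c ^ 2) * (μ g * C x y)) :=
      spx_smul _ (spx_sum _ (fun g x y => (μ g / c ^ 2) * spx_A M Q C g x y)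
        (fun g x y => (μ g / c ^ 2) * (μ g * C x y)) fun g _ => spx_smul _ (hμ' g))
    refine spx_trans h2 ⟨0, fun x y _ => ?_⟩
    rw [add_zero]
    unfold sq
    rw [finsum_eq_sum_of_fintype]
    beta_reduce
    rw [Finset.sum_mul, Finset.mul_sum]
    refine Finset.sum_congr rfl fun g _ => ?_
    simp only [hC]
    field_simp

end Pool.Agent.Helper96.ME
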